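import Mathlib
import Pool.Agent.Lib_MP_5ddbb8_an.Lock5

/-!
Products of a centrally symmetric polytope with centrally symmetric facets, whose facet vectors
are generated by those of the rigid facets, and an arbitrary measurable set of finite positive
measure: the product is spectral if and only if both factors are spectral.
-/

open scoped ComplexConjugate
open MeasureTheory

namespace Pool.Agent.Results.MP_5ddbb8_an.LockedFaces

/-- The exponential `x ↦ exp (2 π i ⟨a, x⟩)` on `ℝ^κ`, where `κ` is a finite index set. -/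
noncomputable def character {κ : Type} [Fintype κ] (a x : κ → ℝ) : ℂ :=
  Complex.exp (2 * Real.pi * Complex.I * ((∑ k, a k * x k : ℝ) : ℂ))

/-- `Ω` is spectral: some countable set `Λ` of frequencies gives pairwise orthogonal exponentials
in `L²(Ω)` that are complete (only the zero class is orthogonal to all of them). -/
def IsSpectral {κ : Type} [Fintype κ] (Ω : Set (κ → ℝ)) : Prop :=
  ∃ Λ : Set (κ → ℝ), Λ.Countable ∧
    (∀ a ∈ Λ, ∀ b ∈ Λ, a ≠ b → ∫ x in Ω, character a x * conj (character b x) = 0) ∧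
    ∀ f : (κ → ℝ) → ℂ, MemLp f 2 (volume.restrict Ω) →
      (∀ a ∈ Λ, ∫ x in Ω, f x * conj (character a x) = 0) → f =ᵐ[volume.restrict Ω] 0

/-- The solution set of the finitely many linear inequalities `⟨a i, x⟩ ≤ b i` in `ℝ^n`. -/
def polyhedron {n k : ℕ} (a : Fin k → Fin n → ℝ) (b : Fin k → ℝ) : Set (Fin n → ℝ) :=
  {x | ∀ i, ∑ j, a i j * x j ≤ b i}

/-- `F` is a facet of `X`: the part of `X` on a supporting hyperplane which does not contain `X`
and whose intersection with the affine span of `X` has a relatively open piece inside `F`. -/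
def IsFacet {n : ℕ} (X F : Set (Fin n → ℝ)) : Prop :=
  ∃ (u : Fin n → ℝ) (h : ℝ), (∀ x ∈ X, ∑ j, u j * x j ≤ h) ∧ (∃ x ∈ X, ∑ j, u j * x j < h) ∧
    F = {x | x ∈ X ∧ ∑ j, u j * x j = h} ∧
    ∃ x ∈ F, ∃ ε > 0, ∀ y ∈ affineSpan ℝ X, dist y x < ε → ∑ j, u j * y j = h → y ∈ F

/-- `c` is a centre of symmetry of `F`. -/
def IsCentre {n : ℕ} (F : Set (Fin n → ℝ)) (c : Fin n → ℝ) : Prop :=
  ∀ x ∈ F, (2 : ℝ) • c - x ∈ F

/-- The facet vectors of `A` (centre `z`): `2 (c - z)` for a facet with centre `c`. -/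
def facetVectors {n : ℕ} (A : Set (Fin n → ℝ)) (z : Fin n → ℝ) : Set (Fin n → ℝ) :=
  {t | ∃ F c, IsFacet A F ∧ IsCentre F c ∧ t = (2 : ℝ) • (c - z)}

/-- `X` is reached from the facet `F` of `A` by walking down through unmatched faces: each face is
a facet `k` of the previous one `X'`, and no translate `k - t` by a facet vector `t` of `A` lies
in `X'`. -/
inductive Descends {n : ℕ} (A : Set (Fin n → ℝ)) (z : Fin n → ℝ) (F : Set (Fin n → ℝ)) :
    Set (Fin n → ℝ) → Prop
  | refl : Descends A z F F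
  | step {X k : Set (Fin n → ℝ)} (hX : Descends A z F X) (hk : IsFacet X k)
      (hun : ∀ t ∈ facetVectors A z, ∃ x ∈ k, x - t ∉ X) : Descends A z F k

/-- Rigidity of the facet `F` (centre `c`) of `A` (centre `z`): one can walk down from `F` through
unmatched faces to a face `X` with a point `y` such that for every `τ ≠ 0` with `y - τ ∈ X` some
`x ∈ F` is moved by `τ` out of `F`, while the point `z + (x + τ - c)` is interior to `A`. (Nothing
has to be checked if `X` is a point.) -/
def Rigid {n : ℕ} (A F : Set (Fin n → ℝ)) (z c : Fin n → ℝ) : Prop :=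
  ∃ X, Descends A z F X ∧ ∃ y ∈ X, ∀ τ : Fin n → ℝ, τ ≠ 0 → y - τ ∈ X →
    ∃ x ∈ F, x + τ ∉ F ∧ z + (x + τ - c) ∈ interior A

/-- The Cartesian product `A × B ⊂ ℝ^(n+m)`; the coordinates of `ℝ^(n+m)` are indexed by
`Fin n ⊕ Fin m`. -/
def productSet {n m : ℕ} (A : Set (Fin n → ℝ)) (B : Set (Fin m → ℝ)) :
    Set (Fin n ⊕ Fin m → ℝ) :=
  {z | (fun i => z (Sum.inl i)) ∈ A ∧ (fun j => z (Sum.inr j)) ∈ B}

/-- a bounded nonempty set has at most one centre -/
lemma centre_unique {n : ℕ} {F : Set (Fin n → ℝ)} (hb : Bornology.IsBounded F)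
    (hne : F.Nonempty) {c c' : Fin n → ℝ} (h : IsCentre F c) (h' : IsCentre F c') : c = c' := by
  obtain ⟨x, hx⟩ := hne
  obtain ⟨R, hR⟩ := hb.subset_closedBall 0
  have hall : ∀ k : ℕ, x + (k : ℝ) • ((2 : ℝ) • (c' - c)) ∈ F := by
    intro k
    induction k with
    | zero => simpa using hx
    | succ k ih =>
      have := h' _ (h _ ih)
      have e : (2 : ℝ) • c' - ((2 : ℝ) • c - (x + (k : ℝ) • ((2 : ℝ) • (c' - c)))) =
          x + ((k + 1 : ℕ) : ℝ) • ((2 : ℝ) • (c' - c)) := by
        push_cast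
        rw [add_smul (k : ℝ) 1, one_smul, smul_sub]; abel
      rwa [e] at this
  by_contra hne
  have hd : 0 < ‖(2 : ℝ) • (c' - c)‖ := by
    rw [norm_pos_iff]
    intro h0
    rw [smul_eq_zero] at h0
    rcases h0 with h0 | h0
    · norm_num at h0
    · exact hne (sub_eq_zero.1 h0).symm
  obtain ⟨k, hk⟩ := exists_nat_gt ((R + ‖x‖) / ‖(2 : ℝ) • (c' - c)‖)
  rw [div_lt_iff₀ hd] at hk
  have h1 := hR (hall k)
  rw [mem_closedBall_zero_iff] at h1
  have h2 : ‖(k : ℝ) • ((2 : ℝ) • (c' - c))‖ ≤ R + ‖x‖ := by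
    have := norm_sub_le (x + (k : ℝ) • ((2 : ℝ) • (c' - c))) x
    rw [add_sub_cancel_left] at this
    linarith
  rw [norm_smul, Real.norm_of_nonneg (Nat.cast_nonneg k)] at h2
  linarith

/-- direction space of a facet -/
lemma vectorSpan_facet {n : ℕ} {X k : Set (Fin n → ℝ)} {u : Fin n → ℝ} {h : ℝ}
    (hk : k = {x | x ∈ X ∧ ∑ j, u j * x j = h}) {x₀ : Fin n → ℝ} (hx₀ : x₀ ∈ k) {ε : ℝ}
    (hε : 0 < ε)
    (hball : ∀ y ∈ affineSpan ℝ X, dist y x₀ < ε → ∑ j, u j * y j = h → y ∈ k) :
    vectorSpan ℝ k = vectorSpan ℝ X ⊓ LinearMap.ker (Lib_MP_5ddbb8_an.dfun u) ∧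
    ∀ d ∈ vectorSpan ℝ X ⊓ LinearMap.ker (Lib_MP_5ddbb8_an.dfun u), ‖d‖ < ε → x₀ + d ∈ k := by
  have hx₀X : x₀ ∈ X := by rw [hk] at hx₀; exact hx₀.1
  have hx₀h : Lib_MP_5ddbb8_an.dfun u x₀ = h := by
    rw [hk] at hx₀
    rw [Lib_MP_5ddbb8_an.dfun_apply]; exact hx₀.2
  have hb : ∀ d ∈ vectorSpan ℝ X ⊓ LinearMap.ker (Lib_MP_5ddbb8_an.dfun u), ‖d‖ < ε →
      x₀ + d ∈ k := by
    rintro d ⟨hd1, hd2⟩ hdn
    refine hball _ ?_ ?_ ?_
    · have := vadd_mem_affineSpan_of_mem_affineSpan_of_mem_vectorSpan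
        (mem_affineSpan ℝ hx₀X) hd1
      rwa [vadd_eq_add, add_comm] at this
    · rw [dist_eq_norm, add_sub_cancel_left]; exact hdn
    · rw [← Lib_MP_5ddbb8_an.dfun_apply, map_add, hx₀h]
      have : Lib_MP_5ddbb8_an.dfun u d = 0 := hd2
      rw [this, add_zero]
  refine ⟨le_antisymm ?_ ?_, hb⟩
  · refine le_inf (vectorSpan_mono ℝ (by rw [hk]; exact fun x hx => hx.1)) ?_
    rw [vectorSpan_def, Submodule.span_le]
    rintro _ ⟨x, hx, y, hy, rfl⟩
    rw [hk] at hx hy
    show Lib_MP_5ddbb8_an.dfun u (x - y) = 0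
    rw [map_sub, Lib_MP_5ddbb8_an.dfun_apply, Lib_MP_5ddbb8_an.dfun_apply, hx.2, hy.2, sub_self]
  · intro d hd
    have hcont : Continuous (fun t : ℝ => ‖t • d‖) := by fun_prop
    have hev : ∀ᶠ t in nhds (0 : ℝ), ‖t • d‖ < ε :=
      hcont.continuousAt.eventually (gt_mem_nhds (by simpa using hε))
    obtain ⟨t, ht, ht0⟩ := ((hev.filter_mono (nhdsWithin_le_nhds (s := Set.Ioi 0))).and
      self_mem_nhdsWithin).exists
    have ht0' : (0 : ℝ) < t := ht0
    have h1 := hb _ (Submodule.smul_mem _ t hd) ht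
    have h2 := vsub_mem_vectorSpan ℝ h1 hx₀
    rw [vsub_eq_sub, add_sub_cancel_left] at h2
    have h3 := (vectorSpan ℝ k).smul_mem t⁻¹ h2
    rwa [smul_smul, inv_mul_cancel₀ ht0'.ne', one_smul] at h3

/-- the hard direction -/
lemma hard {n m k : ℕ} (a : Fin k → Fin n → ℝ) (b : Fin k → ℝ)
    (hbd : Bornology.IsBounded (polyhedron a b)) (hint : (interior (polyhedron a b)).Nonempty)
    (z : Fin n → ℝ) (hz : IsCentre (polyhedron a b) z)
    (hcen : ∀ F, IsFacet (polyhedron a b) F → ∃ c, IsCentre F c)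
    (hgen : ∀ t ∈ facetVectors (polyhedron a b) z, t ∈ AddSubgroup.closure
      {t | ∃ F c, IsFacet (polyhedron a b) F ∧ IsCentre F c ∧ Rigid (polyhedron a b) F z c ∧
        t = (2 : ℝ) • (c - z)})
    (B : Set (Fin m → ℝ)) (hB0 : 0 < volume B) (hB : volume B < ⊤)
    (h : IsSpectral (productSet (polyhedron a b) B)) :
    IsSpectral (polyhedron a b) ∧ IsSpectral B := by
  classical
  set A := polyhedron a b with hA
  let A' : Set (Fin n → ℝ) := {x | x - (-z) ∈ A}
  have hA'mem : ∀ x, x ∈ A' ↔ x + z ∈ A := fun x => by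
    show x - (-z) ∈ A ↔ _
    rw [sub_neg_eq_add]
  have hA'ineq : ∀ x, x ∈ A' ↔ ∀ i, Lib_MP_5ddbb8_an.dfun (a i) x ≤
      b i - Lib_MP_5ddbb8_an.dfun (a i) z := by
    intro x
    rw [hA'mem]
    show (∀ i, ∑ j, a i j * (x + z) j ≤ b i) ↔ _
    refine forall_congr' fun i => ?_
    rw [← Lib_MP_5ddbb8_an.dfun_apply, map_add]
    constructor <;> intro h <;> linarith
  have hA'closed : IsClosed A' := by
    have : A' = ⋂ i, {x | Lib_MP_5ddbb8_an.dfun (a i) x ≤
        b i - Lib_MP_5ddbb8_an.dfun (a i) z} := by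
      ext x
      rw [hA'ineq]; simp
    rw [this]
    refine isClosed_iInter fun i => isClosed_le ?_ continuous_const
    exact (Lib_MP_5ddbb8_an.dfun (a i)).continuous_of_finiteDimensional
  have hA'bd : Bornology.IsBounded A' := by
    obtain ⟨R, hR⟩ := hbd.subset_closedBall 0
    refine (Metric.isBounded_closedBall (x := (0 : Fin n → ℝ)) (r := R + ‖z‖)).subset ?_
    intro x hx
    have h1 := hR ((hA'mem x).1 hx)
    rw [mem_closedBall_zero_iff] at h1 ⊢
    have h2 : ‖x‖ ≤ ‖x + z‖ + ‖z‖ := by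
      have := norm_sub_le (x + z) z
      rwa [add_sub_cancel_right] at this
    linarith
  have hA'c : IsCompact A' := Metric.isCompact_of_isClosed_isBounded hA'closed hA'bd
  have hA'symm : ∀ x ∈ A', -x ∈ A' := by
    intro x hx
    rw [hA'mem] at hx ⊢
    have := hz _ hx
    have e : (2 : ℝ) • z - (x + z) = -x + z := by rw [two_smul]; abel
    rwa [e] at this
  have hA'conv : Convex ℝ A' := by
    intro x hx y hy s t hs ht hst
    rw [hA'ineq] at hx hy ⊢
    intro i
    rw [map_add, map_smul, map_smul, smul_eq_mul, smul_eq_mul]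
    have h1 := mul_le_mul_of_nonneg_left (hx i) hs
    have h2 := mul_le_mul_of_nonneg_left (hy i) ht
    have h3 : s * (b i - Lib_MP_5ddbb8_an.dfun (a i) z) +
        t * (b i - Lib_MP_5ddbb8_an.dfun (a i) z) = b i - Lib_MP_5ddbb8_an.dfun (a i) z := by
      rw [← add_mul, hst, one_mul]
    linarith
  have hint' : ∀ x, x ∈ interior A' ↔ x + z ∈ interior A := by
    intro x
    have h1 := (Homeomorph.addRight z).preimage_interior A
    have h2 : (Homeomorph.addRight z) ⁻¹' A = A' := by
      ext y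
      rw [hA'mem]; rfl
    rw [h2] at h1
    rw [← h1]; rfl
  have h0 : (0 : Fin n → ℝ) ∈ interior A' := by
    obtain ⟨q, hq⟩ := hint
    have hq' : q - z ∈ interior A' := by rw [hint']; simpa using hq
    have := hA'conv.combo_interior_self_mem_interior hq' (hA'symm _ (interior_subset hq'))
      (a := 1 / 2) (b := 1 / 2) (by norm_num) (by norm_num) (by norm_num)
    rw [← smul_add, add_neg_cancel, smul_zero] at this
    exact this
  have hzint : z ∈ interior A := by
    have := (hint' 0).1 h0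
    rwa [zero_add] at this
  have hspA : affineSpan ℝ A = ⊤ := by
    refine top_unique ?_
    rw [← isOpen_interior.affineSpan_eq_top ⟨z, hzint⟩]
    exact affineSpan_mono ℝ interior_subset
  have hspanA : vectorSpan ℝ A = ⊤ := by
    rw [← direction_affineSpan, hspA]
    exact AffineSubspace.direction_top ℝ _ _
  -- the face of `A` cut out by a functional
  let FF : Module.Dual ℝ (Fin n → ℝ) → Set (Fin n → ℝ) := fun u => {x | x ∈ A ∧ u x = 1 + u z}
  obtain ⟨Φ₀, hΦ₀, hΦ₀A⟩ := Lib_MP_5ddbb8_an.exists_normalised h0 _ _ hA'ineq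
  obtain ⟨Φ, c, hp, hr⟩ := Lib_MP_5ddbb8_an.exists_poly hA'c hA'symm hΦ₀ hΦ₀A
    (Pr := fun u c => IsFacet A (FF u) ∧ IsCentre (FF u) (c + z))
    (by
      rintro u hu ⟨p, hpA, hup, hpev⟩
      set v := Lib_MP_5ddbb8_an.dcoord u with hv
      have huv : ∀ x, ∑ j, v j * x j = u x := fun x => by
        rw [← Lib_MP_5ddbb8_an.dfun_apply, hv, Lib_MP_5ddbb8_an.dfun_dcoord]
      have hFmem : ∀ x, x ∈ FF u ↔ x ∈ A ∧ u x = 1 + u z := fun x => Iff.rfl
      have hpF : p + z ∈ FF u := by
        rw [hFmem, map_add, hup]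
        exact ⟨(hA'mem p).1 hpA, rfl⟩
      have hFf : IsFacet A (FF u) := by
        refine ⟨v, 1 + u z, ?_, ⟨z, interior_subset hzint, ?_⟩, ?_, p + z, hpF, ?_⟩
        · intro x hx
          rw [huv]
          have h1 : x - z ∈ A' := by rw [hA'mem]; simpa using hx
          have h2 := hu _ h1
          rw [map_sub] at h2
          linarith
        · rw [huv]; linarith
        · ext x
          rw [hFmem]
          show _ ↔ x ∈ A ∧ ∑ j, v j * x j = 1 + u z
          rw [huv]
        · obtain ⟨ε, hε, hball⟩ := Metric.eventually_nhds_iff.1 hpev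
          refine ⟨ε, hε, fun y _ hy huy => ?_⟩
          rw [huv] at huy
          rw [hFmem]
          have h1 := hball (y := y - z) (by
            have : dist (y - z) p = dist y (p + z) := by
              rw [dist_eq_norm, dist_eq_norm]; congr 1; abel
            rw [this]; exact hy) (by rw [map_sub, huy]; ring)
          rw [hA'mem] at h1
          exact ⟨by simpa using h1, huy⟩
      obtain ⟨cF, hcF⟩ := hcen _ hFf
      have hucF : u cF = 1 + u z := by
        have h1 := (hFmem _).1 (hcF _ hpF)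
        have h2 := (hFmem _).1 hpF
        have h3 := h1.2
        rw [map_sub, map_smul, h2.2, smul_eq_mul] at h3
        linarith
      refine ⟨cF - z, ?_, hFf, by rwa [sub_add_cancel]⟩
      intro x hx hux
      have h1 : x + z ∈ FF u := by
        rw [hFmem, map_add, hux]
        exact ⟨(hA'mem x).1 hx, rfl⟩
      have h2 := (hFmem _).1 (hcF _ h1)
      have e : (2 : ℝ) • cF - (x + z) = (2 : ℝ) • (cF - z) - x + z := by
        rw [smul_sub, two_smul ℝ z]; abel
      rw [e] at h2
      refine ⟨(hA'mem _).2 h2.1, ?_⟩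
      have h3 := h2.2
      rw [map_add] at h3
      linarith)
  -- every facet comes from `Φ`
  have hfacet : ∀ F, IsFacet A F → ∃ u ∈ Φ, F = FF u := by
    rintro F ⟨v, h', hle, ⟨xl, hxl, hxlt⟩, hFeq, x, hxF, ε, hε, hball⟩
    set W := Lib_MP_5ddbb8_an.dfun v with hW
    have hWx : ∀ x, ∑ j, v j * x j = W x := fun x => by rw [hW, Lib_MP_5ddbb8_an.dfun_apply]
    simp only [hWx] at hle hxlt hFeq hball
    have hWz : W z < h' := by
      refine lt_of_le_of_ne (hle z (interior_subset hzint)) fun hWz => ?_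
      have hcont : Continuous (fun δ : ℝ => z + δ • (z - xl)) := by fun_prop
      have hev : ∀ᶠ δ in nhds (0 : ℝ), z + δ • (z - xl) ∈ interior A := by
        refine hcont.continuousAt.eventually_mem (isOpen_interior.mem_nhds ?_)
        simpa using hzint
      obtain ⟨δ, hδ, hδ0⟩ := ((hev.filter_mono (nhdsWithin_le_nhds (s := Set.Ioi 0))).and
        self_mem_nhdsWithin).exists
      have hδ0' : (0 : ℝ) < δ := hδ0
      have h1 := hle _ (interior_subset hδ)
      rw [map_add, map_smul, map_sub, smul_eq_mul, hWz] at h1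
      have : 0 < δ * (h' - W xl) := mul_pos hδ0' (by linarith)
      linarith
    have hpos : 0 < h' - W z := by linarith
    set u₀ : Module.Dual ℝ (Fin n → ℝ) := (h' - W z)⁻¹ • W with hu₀
    have hu₀x : ∀ x, u₀ x = (h' - W z)⁻¹ * W x := fun x => by
      rw [hu₀, LinearMap.smul_apply, smul_eq_mul]
    have hxA : x ∈ A ∧ W x = h' := by rw [hFeq] at hxF; exact hxF
    have hp1 : x - z ∈ A' := by rw [hA'mem]; simpa using hxA.1
    have hp2 : u₀ (x - z) = 1 := by
      rw [hu₀x, map_sub, hxA.2, inv_mul_cancel₀ hpos.ne']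
    have hle' : ∀ y ∈ A', u₀ y ≤ 1 := by
      intro y hy
      have h1 := hle _ ((hA'mem y).1 hy)
      rw [map_add] at h1
      rw [hu₀x, inv_mul_le_iff₀ hpos]
      linarith
    have hbdry : x - z ∉ interior A' := by
      intro hin
      have hcont : Continuous (fun δ : ℝ => (x - z) + δ • (x - z)) := by fun_prop
      have hev : ∀ᶠ δ in nhds (0 : ℝ), (x - z) + δ • (x - z) ∈ interior A' := by
        refine hcont.continuousAt.eventually_mem (isOpen_interior.mem_nhds ?_)
        simpa using hin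
      obtain ⟨δ, hδ, hδ0⟩ := ((hev.filter_mono (nhdsWithin_le_nhds (s := Set.Ioi 0))).and
        self_mem_nhdsWithin).exists
      have hδ0' : (0 : ℝ) < δ := hδ0
      have h1 := hle' _ (interior_subset hδ)
      rw [map_add, map_smul, hp2, smul_eq_mul] at h1
      linarith
    obtain ⟨u, hu, hu1⟩ := hp.exists_of_boundary hp1 hbdry
    have hueq : u = u₀ := by
      refine Lib_MP_5ddbb8_an.eq_of_hyperplane hp2 hu1 ?_
      rw [Metric.eventually_nhds_iff]
      refine ⟨ε, hε, fun y hy huy => ?_⟩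
      have h1 : y + z ∈ F := by
        refine hball _ (by rw [hspA]; trivial) ?_ ?_
        · have : dist (y + z) x = dist y (x - z) := by
            rw [dist_eq_norm, dist_eq_norm]; congr 1; abel
          rw [this]; exact hy
        · rw [hu₀x, inv_mul_eq_iff_eq_mul₀ hpos.ne', mul_one] at huy
          rw [map_add]; linarith
      rw [hFeq] at h1
      exact hp.le_one ((hA'mem y).2 h1.1) hu
    refine ⟨u, hu, ?_⟩
    rw [hFeq]
    ext y
    show (y ∈ A ∧ W y = h') ↔ (y ∈ A ∧ u y = 1 + u z)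
    rw [hueq, hu₀x, hu₀x]
    refine and_congr_right fun _ => ?_
    constructor
    · intro h1
      rw [h1]; field_simp; ring
    · intro h1
      field_simp at h1
      linarith
  -- centres
  have hFb : ∀ u, Bornology.IsBounded (FF u) := fun u => hbd.subset fun x hx => hx.1
  have hFne : ∀ u ∈ Φ, c u + z ∈ FF u := fun u hu => by
    refine ⟨(hA'mem _).1 (hp.c_mem hu), ?_⟩
    rw [map_add, hp.cen u hu]
  have hcentre : ∀ u ∈ Φ, ∀ c', IsCentre (FF u) c' → c' = c u + z := fun u hu c' hc' =>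
    centre_unique (hFb u) ⟨_, hFne u hu⟩ hc' (hr u hu).2
  have hvec : ∀ u ∈ Φ, (2 : ℝ) • c u ∈ facetVectors A z := fun u hu =>
    ⟨FF u, c u + z, (hr u hu).1, (hr u hu).2, by rw [add_sub_cancel_right]⟩
  -- rigidity
  have hrigid : ∀ u ∈ Φ, Rigid A (FF u) z (c u + z) → Lib_MP_5ddbb8_an.Poly.RigC A' Φ c u := by
    rintro u hu ⟨X, hX, y, hy, hτ⟩
    set cF := c u + z with hcF
    have hF0 : Lib_MP_5ddbb8_an.Poly.F0 A' c u = {y | cF + y ∈ FF u} := by
      ext y
      show (u y = 0 ∧ c u + y ∈ A') ↔ (cF + y ∈ A ∧ u (cF + y) = 1 + u z)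
      rw [hA'mem, hcF]
      have e : c u + y + z = c u + z + y := by abel
      rw [e, map_add u (c u + z) y, map_add u (c u) z, hp.cen u hu]
      constructor
      · rintro ⟨h1, h2⟩; exact ⟨h2, by rw [h1, add_zero]⟩
      · rintro ⟨h1, h2⟩; exact ⟨by linarith, h1⟩
    have hdesc : ∀ X, Descends A z (FF u) X → ∃ L, L = vectorSpan ℝ X ∧
        Lib_MP_5ddbb8_an.Poly.Reach A' Φ c u {y | cF + y ∈ X} L ∧
        (Lib_MP_5ddbb8_an.ri {y | cF + y ∈ X} L).Nonempty := by
      intro X hX
      have hri : ∀ {X k : Set (Fin n → ℝ)} {L : Submodule ℝ (Fin n → ℝ)} {x₀ : Fin n → ℝ} {ε : ℝ},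
          0 < ε → x₀ ∈ k → (∀ d ∈ L, ‖d‖ < ε → x₀ + d ∈ k) →
          (Lib_MP_5ddbb8_an.ri {y | cF + y ∈ k} L).Nonempty := by
        intro X k L x₀ ε hε hx₀ hb
        refine ⟨x₀ - cF, ?_, ε, hε, fun d hd hdn => ?_⟩
        · show cF + (x₀ - cF) ∈ k
          rwa [add_sub_cancel]
        · show cF + (x₀ - cF + d) ∈ k
          have e : cF + (x₀ - cF + d) = x₀ + d := by abel
          rw [e]; exact hb d hd hdn
      induction hX with
      | refl =>
        obtain ⟨⟨v, h', hle, hlt, hFeq, x, hxF, ε, hε, hball⟩, -⟩ := hr u hu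
        obtain ⟨h1, h2⟩ := vectorSpan_facet hFeq hxF hε hball
        rw [hspanA, top_inf_eq] at h1
        rw [hspanA, top_inf_eq] at h2
        have hker : LinearMap.ker (Lib_MP_5ddbb8_an.dfun v) = LinearMap.ker u := by
          rw [← h1]
          refine le_antisymm ?_ ?_
          · rw [vectorSpan_def, Submodule.span_le]
            rintro _ ⟨x, hx, y, hy, rfl⟩
            show u (x - y) = 0
            rw [map_sub, hx.2, hy.2, sub_self]
          · intro d hd
            have hud : u d = 0 := hd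
            have hev := Lib_MP_5ddbb8_an.eventually_facet (u := u) (p := c u) hp.fin hp.mem_iff
              (fun v hv hvu => hp.strict u hu v hv hvu)
            have hcont : Continuous (fun t : ℝ => c u + t • d) := by fun_prop
            have hev' : ∀ᶠ y in nhds ((fun t : ℝ => c u + t • d) 0), u y = 1 → y ∈ A' := by
              show ∀ᶠ y in nhds (c u + (0 : ℝ) • d), _
              rw [zero_smul, add_zero]; exact hev
            obtain ⟨t, ht, ht0⟩ := (((hcont.continuousAt.eventually hev').filter_mono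
              (nhdsWithin_le_nhds (s := Set.Ioi 0))).and self_mem_nhdsWithin).exists
            have ht0' : (0 : ℝ) < t := ht0
            have h3 : c u + t • d ∈ A' := ht (by
              rw [map_add, hp.cen u hu, map_smul, hud, smul_zero, add_zero])
            have h4 : c u + t • d + z ∈ FF u := by
              refine ⟨(hA'mem _).1 h3, ?_⟩
              rw [map_add, map_add, hp.cen u hu, map_smul, hud, smul_zero, add_zero]
            have h5 := vsub_mem_vectorSpan ℝ h4 (hFne u hu)
            rw [vsub_eq_sub] at h5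
            have e : c u + t • d + z - (c u + z) = t • d := by abel
            rw [e] at h5
            have h6 := (vectorSpan ℝ (FF u)).smul_mem t⁻¹ h5
            rwa [smul_smul, inv_mul_cancel₀ ht0'.ne', one_smul] at h6
        refine ⟨vectorSpan ℝ (FF u), rfl, ?_, ?_⟩
        · rw [← hF0, h1, hker]
          exact Lib_MP_5ddbb8_an.Poly.Reach.base
        · rw [h1]
          exact hri (X := A) hε hxF h2
      | @step X k hX hk hun ih =>
        obtain ⟨L, hL, hreach, hne⟩ := ih
        obtain ⟨v, h', hle, ⟨xl, hxl, hxlt⟩, hkeq, x, hxk, ε, hε, hball⟩ := hk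
        obtain ⟨h1, h2⟩ := vectorSpan_facet hkeq hxk hε hball
        rw [← hL] at h1 h2
        set W := Lib_MP_5ddbb8_an.dfun v with hW
        have hWx : ∀ x, ∑ j, v j * x j = W x := fun x => by rw [hW, Lib_MP_5ddbb8_an.dfun_apply]
        simp only [hWx] at hle hxlt hkeq
        have hcut : {y | cF + y ∈ k} = Lib_MP_5ddbb8_an.cut {y | cF + y ∈ X} W (h' - W cF) := by
          ext y
          show cF + y ∈ k ↔ (cF + y ∈ X ∧ W y = h' - W cF)
          rw [hkeq]
          show (cF + y ∈ X ∧ W (cF + y) = h') ↔ _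
          rw [map_add]
          refine and_congr_right fun _ => ?_
          constructor <;> intro h3 <;> linarith
        refine ⟨L ⊓ LinearMap.ker W, h1.symm, ?_, ?_⟩
        · rw [hcut]
          refine Lib_MP_5ddbb8_an.Poly.Reach.step hreach W (h' - W cF) ?_ ?_ hne ?_
          · intro y hy
            have := hle _ hy
            rw [map_add] at this
            linarith
          · refine ⟨xl - cF, ?_, ?_⟩
            · show cF + (xl - cF) ∈ X
              rwa [add_sub_cancel]
            · rw [map_sub]; linarith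
          · intro w hw
            obtain ⟨x', hx'k, hx'n⟩ := hun _ (hvec w hw)
            rw [← hcut]
            refine ⟨x' - cF, ?_, ?_⟩
            · show cF + (x' - cF) ∈ k
              rwa [add_sub_cancel]
            · show cF + (x' - cF - (2 : ℝ) • c w) ∉ X
              have e : cF + (x' - cF - (2 : ℝ) • c w) = x' - (2 : ℝ) • c w := by abel
              rwa [e]
        · exact hri (X := X) hε hxk h2
    obtain ⟨L, -, hreach, hne⟩ := hdesc X hX
    refine ⟨_, L, hreach, hne, y - cF, ?_, ?_⟩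
    · show cF + (y - cF) ∈ X
      rwa [add_sub_cancel]
    · intro τ hτ0 hyτ
      have hyτ' : y - τ ∈ X := by
        have h1 : cF + (y - cF - τ) ∈ X := hyτ
        have e : cF + (y - cF - τ) = y - τ := by abel
        rwa [e] at h1
      obtain ⟨x, hxF, hxn, hxi⟩ := hτ τ hτ0 hyτ'
      refine ⟨x - cF, ?_, ?_, ?_⟩
      · rw [hF0]
        show cF + (x - cF) ∈ FF u
        rwa [add_sub_cancel]
      · rw [hint']
        have e : x - cF + τ + z = z + (x + τ - cF) := by abel
        rw [e]; exact hxi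
      · rw [hF0]
        show cF + (x - cF + τ) ∉ FF u
        have e : cF + (x - cF + τ) = x + τ := by abel
        rwa [e]
  have hgen' : ∀ u ∈ Φ, (2 : ℝ) • c u ∈ AddSubgroup.closure
      {t | ∃ v ∈ Φ, Lib_MP_5ddbb8_an.Poly.RigC A' Φ c v ∧ t = (2 : ℝ) • c v} := by
    intro u hu
    refine AddSubgroup.closure_mono ?_ (hgen _ (hvec u hu))
    rintro t ⟨F, cF, hF, hcF, hrig, rfl⟩
    obtain ⟨v, hv, rfl⟩ := hfacet F hF
    have hc := hcentre v hv cF hcF
    subst hc
    exact ⟨v, hv, hrigid v hv hrig, by rw [add_sub_cancel_right]⟩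
  let d : Fin n ⊕ Fin m → ℝ := Sum.elim (-z) 0
  have h1 := Lib_MP_5ddbb8_an.isOB_chr_translate (κ := Fin n ⊕ Fin m) d h
  have h2 : {w : Fin n ⊕ Fin m → ℝ | w - d ∈ productSet A B} =
      Lib_MP_5ddbb8_an.prodSet A' B := by
    ext w
    have e1 : (fun i => (w - d) (Sum.inl i)) = (fun i => w (Sum.inl i)) - (-z) := by
      funext i; simp [d]
    have e2 : (fun j => (w - d) (Sum.inr j)) = (fun j => w (Sum.inr j)) := by
      funext i; simp [d]
    show ((fun i => (w - d) (Sum.inl i)) ∈ A ∧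
      (fun j => (w - d) (Sum.inr j)) ∈ B) ↔ _
    rw [e1, e2]
    rfl
  rw [h2] at h1
  obtain ⟨h3, h4⟩ := Lib_MP_5ddbb8_an.isOB_of_prodSet_lock hp hgen' hB0 hB h1
  refine ⟨?_, h4⟩
  have h5 := Lib_MP_5ddbb8_an.isOB_chr_translate z h3
  have h6 : {x | x - z ∈ A'} = A := by
    ext x
    show x - z ∈ A' ↔ _
    rw [hA'mem]; simp
  rw [h6] at h5
  exact h5

/-- Let `A ⊂ ℝ^n` be a bounded intersection of finitely many half-spaces with nonempty interior,
centrally symmetric about `z`, all of whose facets are centrally symmetric, such that the facet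
vectors of `A` lie in the group generated by the vectors of the rigid facets. Then for every
measurable `B ⊂ ℝ^m` of finite positive measure, `A × B` is spectral if and only if both `A` and
`B` are. -/
theorem result (n m k : ℕ) (a : Fin k → Fin n → ℝ) (b : Fin k → ℝ)
    (hbd : Bornology.IsBounded (polyhedron a b)) (hint : (interior (polyhedron a b)).Nonempty)
    (z : Fin n → ℝ) (hz : IsCentre (polyhedron a b) z)
    (hcen : ∀ F, IsFacet (polyhedron a b) F → ∃ c, IsCentre F c)
    (hgen : ∀ t ∈ facetVectors (polyhedron a b) z, t ∈ AddSubgroup.closure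
      {t | ∃ F c, IsFacet (polyhedron a b) F ∧ IsCentre F c ∧ Rigid (polyhedron a b) F z c ∧
        t = (2 : ℝ) • (c - z)})
    (B : Set (Fin m → ℝ)) (_hBm : MeasurableSet B) (hB0 : 0 < volume B) (hB : volume B < ⊤) :
    IsSpectral (productSet (polyhedron a b) B) ↔
      IsSpectral (polyhedron a b) ∧ IsSpectral B := by
  constructor
  · intro h
    exact hard a b hbd hint z hz hcen hgen B hB0 hB h
  · rintro ⟨h1, h2⟩
    exact Lib_MP_5ddbb8_an.isOB_prodSet hbd.measure_lt_top hB h1 h2

end Pool.Agent.Results.MP_5ddbb8_an.LockedFaces
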