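import Mathlib
import Pool.Agent.Lib_MP_5ddbb8_an.Coord

/-!
Products of a zonotope with an arbitrary measurable set of finite positive measure:
the product is spectral if and only if both factors are spectral.
-/

open scoped ComplexConjugate
open MeasureTheory

namespace Pool.Agent.Results.MP_5ddbb8_an.Zonotope

/-- The exponential `x ↦ exp (2 π i ⟨a, x⟩)` on `ℝ^κ`, where `κ` is a finite index set. -/
noncomputable def character {κ : Type} [Fintype κ] (a x : κ → ℝ) : ℂ :=
  Complex.exp (2 * Real.pi * Complex.I * ((∑ k, a k * x k : ℝ) : ℂ))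

/-- `Ω` is spectral: some countable set `Λ` of frequencies gives pairwise orthogonal exponentials
in `L²(Ω)` that are complete (only the zero class is orthogonal to all of them). -/
def IsSpectral {κ : Type} [Fintype κ] (Ω : Set (κ → ℝ)) : Prop :=
  ∃ Λ : Set (κ → ℝ), Λ.Countable ∧
    (∀ a ∈ Λ, ∀ b ∈ Λ, a ≠ b → ∫ x in Ω, character a x * conj (character b x) = 0) ∧
    ∀ f : (κ → ℝ) → ℂ, MemLp f 2 (volume.restrict Ω) →
      (∀ a ∈ Λ, ∫ x in Ω, f x * conj (character a x) = 0) → f =ᵐ[volume.restrict Ω] 0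

/-- The zonotope with centre `c` and generators `g i`: all points `c + ∑ t i • g i` with
coefficients `|t i| ≤ 1/2`. -/
def zonotope {n k : ℕ} (c : Fin n → ℝ) (g : Fin k → Fin n → ℝ) : Set (Fin n → ℝ) :=
  {x | ∃ t : Fin k → ℝ, (∀ i, |t i| ≤ 1 / 2) ∧ x = c + ∑ i, t i • g i}

/-- The Cartesian product `A × B ⊂ ℝ^(n+m)`; the coordinates of `ℝ^(n+m)` are indexed by
`Fin n ⊕ Fin m`. -/
def productSet {n m : ℕ} (A : Set (Fin n → ℝ)) (B : Set (Fin m → ℝ)) :
    Set (Fin n ⊕ Fin m → ℝ) :=
  {z | (fun i => z (Sum.inl i)) ∈ A ∧ (fun j => z (Sum.inr j)) ∈ B}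

/-- Let `A` be a zonotope in `ℝ^n` with nonempty interior and `B ⊂ ℝ^m` a measurable set of
finite positive measure. Then `A × B` is spectral if and only if both `A` and `B` are. -/
theorem result (n m k : ℕ) (c : Fin n → ℝ) (g : Fin k → Fin n → ℝ)
    (hA : (interior (zonotope c g)).Nonempty) (B : Set (Fin m → ℝ)) (_hBm : MeasurableSet B)
    (hB0 : 0 < volume B) (hB : volume B < ⊤) :
    IsSpectral (productSet (zonotope c g) B) ↔
      IsSpectral (zonotope c g) ∧ IsSpectral B := by
  classical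
  -- the generators span
  have hg : Submodule.span ℝ (Set.range g) = ⊤ := by
    by_contra hne
    obtain ⟨u, hu0, hu⟩ := Submodule.exists_le_ker_of_lt_top _ (lt_top_iff_ne_top.2 hne)
    obtain ⟨x, hx⟩ := hA
    apply hu0
    refine LinearMap.pi_ext' fun w => LinearMap.ext_ring ?_
    have hval : ∀ y ∈ zonotope c g, u y = u c := by
      rintro y ⟨t, -, rfl⟩
      have h0 : ∀ i, u (g i) = 0 := fun i => hu (Submodule.subset_span ⟨i, rfl⟩)
      simp [map_add, map_sum, h0]
    have hcont : Continuous (fun ε : ℝ => x + ε • (Pi.single w (1 : ℝ) : Fin n → ℝ)) := by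
      fun_prop
    have hev : ∀ᶠ ε in nhds (0 : ℝ), x + ε • (Pi.single w (1 : ℝ) : Fin n → ℝ) ∈
        interior (zonotope c g) := by
      refine hcont.continuousAt.eventually_mem (isOpen_interior.mem_nhds ?_)
      simpa using hx
    obtain ⟨ε, hε, hε0⟩ := ((hev.filter_mono (nhdsWithin_le_nhds (s := Set.Ioi 0))).and
      self_mem_nhdsWithin).exists
    have h1 := hval _ (interior_subset hε)
    have h2 := hval _ (interior_subset hx)
    rw [map_add, map_smul, h2, smul_eq_mul] at h1
    have h3 : u (Pi.single w (1 : ℝ)) = 0 := by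
      have h4 : ε * u (Pi.single w (1 : ℝ)) = 0 := by linarith
      rcases mul_eq_zero.1 h4 with h5 | h5
      · exact absurd h5 (ne_of_gt hε0)
      · exact h5
    simpa using h3
  have hzon : zonotope c g = {x | x - c ∈ Lib_MP_5ddbb8_an.Zc g Set.univ} := by
    ext x
    constructor
    · rintro ⟨t, ht, rfl⟩
      exact ⟨t, ht, by simp, by simp⟩
    · rintro ⟨t, ht, -, h3⟩
      exact ⟨t, ht, by rw [h3]; simp⟩
  have hzon' : Lib_MP_5ddbb8_an.Zc g Set.univ = {x | x - (-c) ∈ zonotope c g} := by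
    rw [hzon]
    ext x
    simp
  have hAfin : volume (zonotope c g) < ⊤ := by
    have h1 := (Lib_MP_5ddbb8_an.isCompact_win
      (Lib_MP_5ddbb8_an.isCompact_Zc g Set.univ) c).measure_lt_top (μ := volume)
    rw [hzon]; exact h1
  constructor
  · intro h
    let d : Fin n ⊕ Fin m → ℝ := Sum.elim (-c) 0
    have h1 := Lib_MP_5ddbb8_an.isOB_chr_translate (κ := Fin n ⊕ Fin m) d h
    have h2 : {z : Fin n ⊕ Fin m → ℝ | z - d ∈ productSet (zonotope c g) B} =
        Lib_MP_5ddbb8_an.prodSet (Lib_MP_5ddbb8_an.Zc g Set.univ) B := by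
      ext z
      have e1 : (fun i => (z - d) (Sum.inl i)) = (fun i => z (Sum.inl i)) - (-c) := by
        funext i; simp [d]
      have e2 : (fun j => (z - d) (Sum.inr j)) = (fun j => z (Sum.inr j)) := by
        funext i; simp [d]
      show ((fun i => (z - d) (Sum.inl i)) ∈ zonotope c g ∧
        (fun j => (z - d) (Sum.inr j)) ∈ B) ↔ _
      rw [e1, e2, hzon']
      rfl
    rw [h2] at h1
    obtain ⟨h3, h4⟩ := Lib_MP_5ddbb8_an.isOB_of_prodSet g hg hB0 hB h1
    refine ⟨?_, h4⟩
    have h5 := Lib_MP_5ddbb8_an.isOB_chr_translate c h3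
    rw [← hzon] at h5
    exact h5
  · rintro ⟨h1, h2⟩
    exact Lib_MP_5ddbb8_an.isOB_prodSet hAfin hB h1 h2

end Pool.Agent.Results.MP_5ddbb8_an.Zonotope
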